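import Pool.Agent.HEC.Stmts

/-! # Squad HEC, row TWO (helper82) -/

set_option autoImplicit false

open Finset

namespace Pool.Agent.HEC.H82

open Classical in
/-- indicator -/
noncomputable def ind (p : Prop) : ℝ := if p then 1 else 0

theorem ind_t {p : Prop} (h : p) : ind p = 1 := if_pos h
theorem ind_f {p : Prop} (h : ¬ p) : ind p = 0 := if_neg h

theorem ind_nonneg (p : Prop) : 0 ≤ ind p := by
  by_cases h : p
  · rw [ind_t h]; norm_num
  · rw [ind_f h]

theorem ind_le (p : Prop) : ind p ≤ 1 := by
  by_cases h : p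
  · rw [ind_t h]
  · rw [ind_f h]; norm_num

theorem ite_ind (p : Prop) [Decidable p] (x : ℝ) : (if p then x else 0) = ind p * x := by
  by_cases h : p
  · rw [if_pos h, ind_t h, one_mul]
  · rw [if_neg h, ind_f h, zero_mul]

open Classical in
/-- extension by zero -/
noncomputable def ext {α : Type} {P : α → Prop} (y : {p // P p} → ℝ) (p : α) : ℝ :=
  if h : P p then y ⟨p, h⟩ else 0

theorem ext_t {α : Type} {P : α → Prop} (y : {p // P p} → ℝ) (p : α) (h : P p) :
    ext y p = y ⟨p, h⟩ := dif_pos h

theorem ext_f {α : Type} {P : α → Prop} (y : {p // P p} → ℝ) (p : α) (h : ¬ P p) :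
    ext y p = 0 := dif_neg h

theorem sumE {α : Type} [Fintype α] (P : α → Prop) [Fintype {p // P p}] (y : {p // P p} → ℝ)
    (c : α → Prop) :
    (∑ e : {p // P p}, ind (c e.1) * y e) = ∑ p : α, ind (c p) * ext y p := by
  classical
  have h1 : (∑ p : α, ind (c p) * ext y p) = ∑ p ∈ univ.filter P, ind (c p) * ext y p := by
    rw [sum_filter]
    refine sum_congr rfl fun p _ => ?_
    by_cases h : P p
    · rw [if_pos h]
    · rw [if_neg h, ext_f y p h, mul_zero]
  rw [h1, sum_subtype (univ.filter P) (p := P) (fun x => by simp)]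
  refine sum_congr rfl fun e _ => ?_
  rw [ext_t y e.1 e.2]

variable {V : Type} [Fintype V]

theorem dg_real (H : SimpleGraph V) (w : V) : (dg H w : ℝ) = ∑ u, ind (H.Adj w u) := by
  unfold dg cnt ind
  simp

theorem cut_real (H : SimpleGraph V) (W : Finset V) :
    (cut H W : ℝ) = ∑ p, ∑ q, ind (p ∈ W) * (1 - ind (q ∈ W)) * ind (H.Adj p q) := by
  unfold cut cnt
  rw [Finset.card_filter]
  push_cast
  rw [Fintype.sum_prod_type]
  refine sum_congr rfl fun p _ => sum_congr rfl fun q _ => ?_
  by_cases h1 : p ∈ W <;> by_cases h2 : q ∈ W <;> by_cases h3 : H.Adj p q <;>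
    simp [ind, h1, h2, h3]

/-- number of neighbours in `U` -/
noncomputable def nb (H : SimpleGraph V) (U : Finset V) (w : V) : ℝ :=
  ∑ u, ind (H.Adj w u) * ind (u ∈ U)

theorem nb_nonneg (H : SimpleGraph V) (U : Finset V) (w : V) : 0 ≤ nb H U w :=
  sum_nonneg fun _ _ => mul_nonneg (ind_nonneg _) (ind_nonneg _)

theorem nb_le (H : SimpleGraph V) (U : Finset V) (w : V) : nb H U w ≤ dg H w := by
  rw [dg_real]
  refine sum_le_sum fun u _ => ?_
  have := mul_le_mul_of_nonneg_left (ind_le (u ∈ U)) (ind_nonneg (H.Adj w u))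
  linarith

theorem nb_compl (H : SimpleGraph V) (U : Finset V) (w : V) :
    ∑ u, ind (H.Adj w u) * (1 - ind (u ∈ U)) = dg H w - nb H U w := by
  rw [dg_real, nb, ← sum_sub_distrib]
  exact sum_congr rfl fun u _ => by ring

theorem cutineq (H : SimpleGraph V) (t : V → Bool) (hb : ∀ u v, H.Adj u v → t u ≠ t v)
    (U : Finset V) (hU : ∀ u ∈ U, t u = true) (L : ℝ)
    (hcut : ∀ W : Finset V, W.Nonempty → W ≠ univ → L ≤ (cut H W : ℝ)) (hne : U.Nonempty)
    (z : V) (hz : t z = true) (hzU : z ∉ U) :
    L ≤ ∑ w, ind (t w = false) * (2 * nb H U w * (dg H w - nb H U w) / dg H w) := by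
  classical
  set W : Finset V := univ.filter (fun v => v ∈ U ∨ (t v = false ∧ dg H v - nb H U v < nb H U v))
    with hW
  have hWne : W.Nonempty := by
    obtain ⟨u, hu⟩ := hne
    exact ⟨u, by simp [hW, hu]⟩
  have hWu : W ≠ univ := by
    intro h
    have h1 : z ∈ W := by rw [h]; exact mem_univ z
    simp [hW, hzU, hz] at h1
  refine (hcut W hWne hWu).trans ?_
  have memT : ∀ v, t v = true → ind (v ∈ W) = ind (v ∈ U) := by
    intro v hv
    by_cases h : v ∈ U
    · rw [ind_t h, ind_t (by simp [hW, h])]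
    · rw [ind_f h, ind_f (by simp [hW, h, hv])]
  have split : (cut H W : ℝ) = ∑ w, ind (t w = false) *
      (ind (w ∈ W) * (dg H w - nb H U w) + (1 - ind (w ∈ W)) * nb H U w) := by
    have e1 : (cut H W : ℝ) = (∑ p, ∑ q, ind (t p = false) *
        (ind (p ∈ W) * (ind (H.Adj p q) * (1 - ind (q ∈ U))))) +
        ∑ p, ∑ q, ind (t q = false) * ((1 - ind (q ∈ W)) * (ind (H.Adj q p) * ind (p ∈ U))) := by
      rw [cut_real, ← sum_add_distrib]
      refine sum_congr rfl fun p _ => ?_
      rw [← sum_add_distrib]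
      refine sum_congr rfl fun q _ => ?_
      by_cases h3 : H.Adj p q
      · have hne := hb p q h3
        rw [ind_t h3, ind_t h3.symm]
        rcases hp : t p with _ | _
        · have hq : t q = true := by
            rcases hq : t q with _ | _
            · exact absurd (hp.trans hq.symm) hne
            · rfl
          rw [memT q hq, ind_t (rfl : false = false), hq, ind_f (by simp : ¬ (true = false))]
          ring
        · have hq : t q = false := by
            rcases hq : t q with _ | _
            · rfl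
            · exact absurd (hp.trans hq.symm) hne
          rw [memT p hp, hq, ind_t (rfl : false = false), ind_f (by simp : ¬ (true = false))]
          ring
      · rw [ind_f h3, ind_f (p := H.Adj q p) (fun h => h3 h.symm)]
        ring
    rw [e1]
    rw [sum_comm (f := fun p q => ind (t q = false) *
      ((1 - ind (q ∈ W)) * (ind (H.Adj q p) * ind (p ∈ U))))]
    rw [← sum_add_distrib]
    refine sum_congr rfl fun w _ => ?_
    rw [← mul_sum, ← mul_sum, ← mul_sum, ← mul_sum, nb_compl, mul_add]
    rfl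
  rw [split]
  refine sum_le_sum fun w _ => ?_
  by_cases htw : t w = false
  · rw [ind_t htw, one_mul, one_mul]
    have h0 := nb_nonneg H U w
    have h1 := nb_le H U w
    rcases eq_or_lt_of_le (h0.trans h1) with hd | hd
    · have h2 : nb H U w = 0 := le_antisymm (h1.trans hd.symm.le) h0
      rw [h2, ← hd]; simp
    · by_cases hw : (dg H w : ℝ) - nb H U w < nb H U w
      · have hwW : w ∈ W := by simp [hW, htw, hw]
        rw [ind_t hwW, le_div_iff₀ hd]
        nlinarith
      · have hwW : w ∉ W := by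
          intro h
          rw [hW, mem_filter] at h
          rcases h.2 with h | h
          · have := hU w h
            rw [htw] at this
            exact absurd this (by simp)
          · exact hw h.2
        rw [ind_f hwW, le_div_iff₀ hd]
        push Not at hw
        nlinarith
  · rw [ind_f htw, zero_mul, zero_mul]

open Classical in
theorem two (hT : ThaStmt) : TwoStmt := by
  intro V _ H t L eta M r hb hL hcut hel hM hdvd
  have heta : 0 < eta := by
    by_contra h
    push Not at h
    nlinarith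
  -- the multigraph on the side `t = true`
  let P : V × V × V → Prop := fun p => t p.1 = false ∧ H.Adj p.1 p.2.1 ∧ H.Adj p.1 p.2.2
  have nbr : ∀ w u, t w = false → H.Adj w u → t u = true := by
    intro w u hw hu
    have h1 := hb w u hu
    rcases h : t u with _ | _
    · exact absurd (hw.trans h.symm) h1
    · rfl
  let S := {v : V // t v = true}
  let E := {p : V × V × V // P p}
  let s : E → S := fun e => ⟨e.1.2.1, nbr _ _ e.2.1 e.2.2.1⟩
  let s' : E → S := fun e => ⟨e.1.2.2, nbr _ _ e.2.1 e.2.2.2⟩
  let k : E → ℝ := fun e => 1 / (dg H e.1.1 : ℝ)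
  have dgpos : ∀ w u, H.Adj w u → 0 < (dg H w : ℝ) := by
    intro w u h
    rw [dg_real]
    refine sum_pos' (fun _ _ => ind_nonneg _) ⟨u, mem_univ u, ?_⟩
    rw [ind_t h]; exact one_pos
  have hk : ∀ e, 0 < k e := fun e => one_div_pos.mpr (dgpos _ _ e.2.2.1)
  have hc : ∀ W : Finset S, W.Nonempty → W ≠ univ → L ≤ mcut s s' k W := by
    intro W hW1 hW2
    let U : Finset V := univ.filter (fun v => ∃ h : t v = true, (⟨v, h⟩ : S) ∈ W)
    have memU : ∀ v (h : t v = true), v ∈ U ↔ (⟨v, h⟩ : S) ∈ W := by
      intro v h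
      simp only [U, mem_filter, mem_univ, true_and]
      exact ⟨fun ⟨_, h2⟩ => h2, fun h2 => ⟨h, h2⟩⟩
    obtain ⟨u0, hu0⟩ := hW1
    obtain ⟨z0, hz0⟩ : ∃ z : S, z ∉ W := by
      by_contra hcon
      push Not at hcon
      exact hW2 (eq_univ_iff_forall.mpr hcon)
    have h1 := cutineq H t hb U (fun u hu => by
      simp only [U, mem_filter, mem_univ, true_and] at hu
      exact hu.1) L hcut ⟨u0.1, (memU u0.1 u0.2).mpr hu0⟩ z0.1 z0.2
      (fun h => hz0 ((memU z0.1 z0.2).mp h))
    refine h1.trans (le_of_eq ?_)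
    have h2 : mcut s s' k W = ∑ e : E, ind ((e.1.2.1 ∈ U ∧ e.1.2.2 ∉ U) ∨
        (e.1.2.1 ∉ U ∧ e.1.2.2 ∈ U)) * k e := by
      unfold mcut
      refine sum_congr rfl fun e _ => ?_
      have m1 := memU e.1.2.1 (nbr _ _ e.2.1 e.2.2.1)
      have m2 := memU e.1.2.2 (nbr _ _ e.2.1 e.2.2.2)
      rw [ite_ind, m1, m2]
    rw [h2]
    have h3 := sumE P k (fun p => (p.2.1 ∈ U ∧ p.2.2 ∉ U) ∨ (p.2.1 ∉ U ∧ p.2.2 ∈ U))
    refine Eq.trans ?_ h3.symm
    rw [Fintype.sum_prod_type]
    refine sum_congr rfl fun w _ => ?_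
    rw [Fintype.sum_prod_type]
    have h4 : ∀ u u', ind ((u ∈ U ∧ u' ∉ U) ∨ (u ∉ U ∧ u' ∈ U)) * ext k (w, u, u') =
        ind (t w = false) * (1 / (dg H w : ℝ)) *
          ((ind (H.Adj w u) * ind (u ∈ U)) * (ind (H.Adj w u') * (1 - ind (u' ∈ U))) +
           (ind (H.Adj w u) * (1 - ind (u ∈ U))) * (ind (H.Adj w u') * ind (u' ∈ U))) := by
      intro u u'
      by_cases a1 : t w = false <;> by_cases a2 : H.Adj w u <;> by_cases a3 : H.Adj w u' <;>
        by_cases a4 : u ∈ U <;> by_cases a5 : u' ∈ U <;> simp [ind, ext, P, k, a1, a2, a3, a4, a5]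
    simp only [h4]
    simp only [← mul_sum, mul_add, sum_add_distrib, ← sum_mul]
    rw [nb_compl]
    change _ = ind (t w = false) * (1 / (dg H w : ℝ)) * (nb H U w * (dg H w - nb H U w)) +
      ind (t w = false) * (1 / (dg H w : ℝ)) * ((dg H w - nb H U w) * nb H U w)
    ring
  have hr : (M : ℤ) ∣ ∑ v : S, r v.1 := by
    have : (∑ v : S, r v.1) = ∑ v, (if t v = true then r v else 0) := by
      rw [← sum_filter]
      exact (sum_subtype (univ.filter fun v => t v = true) (fun x => by simp) r).symm
    rw [this]; exact hdvd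
  obtain ⟨b, y, hb1, hb2, hy, hbd⟩ := hT S E s s' k L eta M (fun v => r v.1) hL hk hc hel hM hr
  let Y : V → V → V → ℝ := fun w u u' => ext y (w, u, u')
  have Y0 : ∀ w u u', ¬ P (w, u, u') → Y w u u' = 0 := fun w u u' h => ext_f y _ h
  have Yb : ∀ w u u', |Y w u u'| ≤ ind (H.Adj w u') * (M / 2 * (eta * (1 / (dg H w : ℝ)))) := by
    intro w u u'
    by_cases h : P (w, u, u')
    · rw [ind_t h.2.2, one_mul]
      have : Y w u u' = y ⟨(w, u, u'), h⟩ := ext_t y _ h
      rw [this]
      exact hy ⟨(w, u, u'), h⟩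
    · rw [Y0 _ _ _ h, abs_zero]
      have : 0 ≤ (dg H w : ℝ) := Nat.cast_nonneg _
      exact mul_nonneg (ind_nonneg _) (by positivity)
  have Yb' : ∀ w u u', |Y w u' u| ≤ ind (H.Adj w u') * (M / 2 * (eta * (1 / (dg H w : ℝ)))) := by
    intro w u u'
    by_cases h : P (w, u', u)
    · rw [ind_t h.2.1, one_mul]
      have : Y w u' u = y ⟨(w, u', u), h⟩ := ext_t y _ h
      rw [this]
      exact hy ⟨(w, u', u), h⟩
    · rw [Y0 _ _ _ h, abs_zero]
      have : 0 ≤ (dg H w : ℝ) := Nat.cast_nonneg _
      exact mul_nonneg (ind_nonneg _) (by positivity)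
  let X : V → V → ℝ := fun w u => ∑ u', (Y w u u' - Y w u' u)
  have X0 : ∀ w u, ¬ (t w = false ∧ H.Adj w u) → X w u = 0 := by
    intro w u h
    refine sum_eq_zero fun u' _ => ?_
    rw [Y0 w u u' (fun h' => h ⟨h'.1, h'.2.1⟩), Y0 w u' u (fun h' => h ⟨h'.1, h'.2.2⟩), sub_zero]
  have Xb : ∀ w u, |X w u| ≤ M * eta := by
    intro w u
    by_cases h : t w = false ∧ H.Adj w u
    · have hd := dgpos w u h.2
      calc |X w u| ≤ ∑ u', |Y w u u' - Y w u' u| := abs_sum_le_sum_abs _ _
        _ ≤ ∑ u', ind (H.Adj w u') * (M * (eta * (1 / (dg H w : ℝ)))) := by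
          refine sum_le_sum fun u' _ => ?_
          have h1 := abs_sub (Y w u u') (Y w u' u)
          have h2 := Yb w u u'
          have h3 := Yb' w u u'
          linarith
        _ = M * eta := by
          rw [← sum_mul, ← dg_real]
          field_simp
    · rw [X0 w u h, abs_zero]
      positivity
  refine ⟨fun v => if h : t v = true then b ⟨v, h⟩ else 0,
    fun p q => if t p = false then X p q else X q p, ?_, ?_, ?_, ⟨?_, ?_, ?_⟩, ?_⟩
  · intro v hv
    exact dif_neg (by rw [hv]; simp)
  · intro v hv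
    change (M : ℤ) ∣ (if h : t v = true then b ⟨v, h⟩ else 0) - r v
    rw [dif_pos hv]
    exact hb1 ⟨v, hv⟩
  · have e1 : (∑ v, if h : t v = true then b ⟨v, h⟩ else 0) = ∑ v : S, b v := by
      have key := Fintype.sum_subtype_add_sum_subtype (fun v => t v = true)
        (fun v : V => if h : t v = true then b ⟨v, h⟩ else 0)
      rw [← key]
      have h0 : (∑ x : {x // ¬ t x = true}, if h : t x.1 = true then b ⟨x.1, h⟩ else 0) = 0 := by
        apply Finset.sum_eq_zero
        rintro ⟨x, hx⟩ _
        exact dif_neg hx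
      rw [h0, add_zero]
      refine Fintype.sum_congr _ _ ?_
      rintro ⟨x, hx⟩
      exact dif_pos hx
    rw [e1, hb2]
  · intro u v
    change (if t u = false then X u v else X v u) = (if t v = false then X v u else X u v)
    by_cases h1 : t u = false <;> by_cases h2 : t v = false
    · rw [if_pos h1, if_pos h2, X0 u v (fun h => hb u v h.2 (h1.trans h2.symm)),
        X0 v u (fun h => hb v u h.2 (h2.trans h1.symm))]
    · rw [if_pos h1, if_neg h2]
    · rw [if_neg h1, if_pos h2]
    · rw [if_neg h1, if_neg h2, X0 u v (fun h => h1 h.1), X0 v u (fun h => h2 h.1)]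
  · intro u v h
    change (if t u = false then X u v else X v u) = 0
    rw [X0 u v (fun h' => h h'.2), X0 v u (fun h' => h h'.2.symm)]
    simp
  · intro u v
    change |(if t u = false then X u v else X v u)| ≤ M * eta
    split_ifs
    · exact Xb u v
    · exact Xb v u
  · intro p
    change (∑ q, if t p = false then X p q else X q p) = ((if h : t p = true then b ⟨p, h⟩ else 0 : ℤ) : ℝ)
    by_cases hp : t p = false
    · simp only [if_pos hp]
      rw [dif_neg (by rw [hp]; simp), Int.cast_zero]
      change (∑ q, ∑ u', (Y p q u' - Y p u' q)) = 0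
      simp only [sum_sub_distrib]
      rw [sum_comm (f := fun q u' => Y p u' q), sub_self]
    · have hp' : t p = true := by
        rcases h : t p with _ | _
        · exact absurd h hp
        · rfl
      simp only [if_neg hp]
      rw [dif_pos hp', ← hbd ⟨p, hp'⟩]
      simp only [ite_ind]
      have f1 : (∑ e : E, ind (s e = ⟨p, hp'⟩) * y e) = ∑ w, ∑ u', Y w p u' := by
        have g1 : (∑ e : E, ind (s e = ⟨p, hp'⟩) * y e) =
            ∑ e : E, ind (e.1.2.1 = p) * y e := by
          refine sum_congr rfl fun e _ => ?_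
          have : (s e = ⟨p, hp'⟩) = (e.1.2.1 = p) := propext Subtype.ext_iff
          rw [this]
        rw [g1]
        have g2 := sumE P y (fun q => q.2.1 = p)
        refine g2.trans ?_
        rw [Fintype.sum_prod_type]
        refine sum_congr rfl fun w _ => ?_
        rw [Fintype.sum_prod_type, sum_comm]
        refine sum_congr rfl fun u' _ => ?_
        rw [sum_eq_single p]
        · rw [ind_t rfl, one_mul]
        · intro q _ hq
          rw [ind_f hq, zero_mul]
        · intro h
          exact absurd (mem_univ p) h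
      have f2 : (∑ e : E, ind (s' e = ⟨p, hp'⟩) * y e) = ∑ w, ∑ u', Y w u' p := by
        have g1 : (∑ e : E, ind (s' e = ⟨p, hp'⟩) * y e) =
            ∑ e : E, ind (e.1.2.2 = p) * y e := by
          refine sum_congr rfl fun e _ => ?_
          have : (s' e = ⟨p, hp'⟩) = (e.1.2.2 = p) := propext Subtype.ext_iff
          rw [this]
        rw [g1]
        have g2 := sumE P y (fun q => q.2.2 = p)
        refine g2.trans ?_
        rw [Fintype.sum_prod_type]
        refine sum_congr rfl fun w _ => ?_
        rw [Fintype.sum_prod_type]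
        refine sum_congr rfl fun u' _ => ?_
        rw [sum_eq_single p]
        · rw [ind_t rfl, one_mul]
        · intro q _ hq
          rw [ind_f hq, zero_mul]
        · intro h
          exact absurd (mem_univ p) h
      rw [f1, f2, ← sum_sub_distrib]
      refine sum_congr rfl fun w _ => ?_
      change ∑ u', (Y w p u' - Y w u' p) = _
      rw [sum_sub_distrib]

end Pool.Agent.HEC.H82
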